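import Mathlib
import Pool.Agent.Results.MP_743c94_lc.Full

namespace Pool.Agent.H326NC

open Pool.Agent.Results.MP_743c94_lc.Full

/-- Bounded universal quantification. -/
def ball (f : ℕ → Bool) (n : ℕ) : Bool :=
  Nat.rec (motive := fun _ => Bool) true (fun k ih => ih && f k) n

lemma ball_iff {f : ℕ → Bool} {n : ℕ} : ball f n = true ↔ ∀ k < n, f k = true := by
  induction n with
  | zero => simp [ball]
  | succ n ih =>
    have h0 : ball f (n + 1) = (ball f n && f n) := rfl
    rw [h0, Bool.and_eq_true, ih]
    constructor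
    · rintro ⟨h1, h2⟩ k hk
      rcases Nat.lt_succ_iff_lt_or_eq.1 hk with h | rfl
      · exact h1 k h
      · exact h2
    · intro h
      exact ⟨fun k hk => h k (by omega), h n (by omega)⟩

lemma computable_ball {α : Type} [Primcodable α] {f : α → ℕ → Bool} {n : α → ℕ}
    (hf : Computable₂ f) (hn : Computable n) : Computable (fun a => ball (f a) (n a)) := by
  have h : Computable₂ (fun (a : α) (p : ℕ × Bool) => (p.2 && f a p.1)) :=
    (Primrec.and.to_comp).comp (Computable.snd.comp Computable.snd)
      (hf.comp Computable.fst (Computable.fst.comp Computable.snd))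
  exact Computable.nat_rec hn (Computable.const true) h

/-- Homogeneity of colour `i`. -/
def Hom (c : ℕ → ℕ → Bool) (i : Bool) (G : ℕ → Bool) : Prop :=
  ∀ x y, x < y → G x = true → G y = true → c x y = i

def Inf (G : ℕ → Bool) : Prop := {n | G n = true}.Infinite

/-- The elements of the greedy set below `y`. -/
def gl (c : ℕ → ℕ → Bool) (X : ℕ → Bool) (b : Bool) (y : ℕ) : List ℕ :=
  Nat.rec (motive := fun _ => List ℕ) []
    (fun z l => bif (X z && ball (fun t => c (l.getD t 0) z == b) l.length) then l ++ [z] else l) y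

/-- The greedy set. -/
def greedy (c : ℕ → ℕ → Bool) (X : ℕ → Bool) (b : Bool) (y : ℕ) : Bool :=
  X y && ball (fun t => c ((gl c X b y).getD t 0) y == b) (gl c X b y).length

lemma ball_list {l : List ℕ} {p : ℕ → Bool} :
    ball (fun t => p (l.getD t 0)) l.length = true ↔ ∀ x ∈ l, p x = true := by
  rw [ball_iff]
  constructor
  · intro h x hx
    obtain ⟨n, hn, rfl⟩ := List.getElem_of_mem hx
    have := h n hn
    rwa [List.getD_eq_getElem _ _ hn] at this
  · intro h t ht
    rw [List.getD_eq_getElem _ _ ht]
    exact h _ (List.getElem_mem _)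

lemma mem_gl {c : ℕ → ℕ → Bool} {X : ℕ → Bool} {b : Bool} {x y : ℕ} :
    x ∈ gl c X b y ↔ x < y ∧ greedy c X b x = true := by
  induction y with
  | zero => simp [gl]
  | succ y ih =>
    have h0 : gl c X b (y + 1) = bif greedy c X b y then gl c X b y ++ [y] else gl c X b y := rfl
    rw [h0]
    cases hg : greedy c X b y
    · rw [cond_false, ih]
      constructor
      · rintro ⟨h1, h2⟩; exact ⟨by omega, h2⟩
      · rintro ⟨h1, h2⟩
        rcases Nat.lt_succ_iff_lt_or_eq.1 h1 with h | rfl
        · exact ⟨h, h2⟩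
        · rw [hg] at h2; exact absurd h2 (by simp)
    · rw [cond_true, List.mem_append, ih, List.mem_singleton]
      constructor
      · rintro (⟨h1, h2⟩ | rfl)
        · exact ⟨by omega, h2⟩
        · exact ⟨by omega, hg⟩
      · rintro ⟨h1, h2⟩
        rcases Nat.lt_succ_iff_lt_or_eq.1 h1 with h | rfl
        · exact Or.inl ⟨h, h2⟩
        · exact Or.inr rfl

lemma greedy_iff {c : ℕ → ℕ → Bool} {X : ℕ → Bool} {b : Bool} {y : ℕ} :
    greedy c X b y = true ↔ X y = true ∧ ∀ x < y, greedy c X b x = true → c x y = b := by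
  unfold greedy
  rw [Bool.and_eq_true, ball_list (p := fun z => c z y == b)]
  refine and_congr_right fun _ => ?_
  constructor
  · intro h x hx hg
    simpa using h x (mem_gl.2 ⟨hx, hg⟩)
  · intro h x hx
    have := mem_gl.1 hx
    simpa using h x this.1 this.2

lemma computable_gl {c : ℕ → ℕ → Bool} {X : ℕ → Bool} (b : Bool) (hc : Computable₂ c)
    (hX : Computable X) : Computable (gl c X b) := by
  have hb : Computable₂ (fun (q : ℕ × List ℕ) (t : ℕ) => (c (q.2.getD t 0) q.1 == b)) := by
    have h1 : Computable₂ (fun (q : ℕ × List ℕ) (t : ℕ) => c (q.2.getD t 0) q.1) :=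
      hc.comp (((Primrec.list_getD 0).to_comp).comp (Computable.snd.comp Computable.fst)
        Computable.snd) (Computable.fst.comp Computable.fst)
    have h2 : Primrec (fun a : Bool => (a == b)) := Primrec.dom_finite _
    exact h2.to_comp.comp h1
  have hball : Computable (fun q : ℕ × List ℕ =>
      ball (fun t => c (q.2.getD t 0) q.1 == b) q.2.length) :=
    computable_ball hb (Computable.list_length.comp Computable.snd)
  have hcond : Computable (fun q : ℕ × List ℕ =>
      (X q.1 && ball (fun t => c (q.2.getD t 0) q.1 == b) q.2.length)) :=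
    (Primrec.and.to_comp).comp (hX.comp Computable.fst) hball
  have hstep : Computable (fun q : ℕ × List ℕ =>
      bif (X q.1 && ball (fun t => c (q.2.getD t 0) q.1 == b) q.2.length)
        then q.2 ++ [q.1] else q.2) :=
    Computable.cond hcond (Computable.list_concat.comp Computable.snd Computable.fst)
      Computable.snd
  exact Computable.nat_rec (f := fun y : ℕ => y) (g := fun _ => ([] : List ℕ))
    (h := fun (_ : ℕ) (q : ℕ × List ℕ) =>
      bif (X q.1 && ball (fun t => c (q.2.getD t 0) q.1 == b) q.2.length)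
        then q.2 ++ [q.1] else q.2) Computable.id (Computable.const []) (hstep.comp Computable.snd)

lemma computable_greedy {c : ℕ → ℕ → Bool} {X : ℕ → Bool} (b : Bool) (hc : Computable₂ c)
    (hX : Computable X) : Computable (greedy c X b) := by
  have hgl := computable_gl b hc hX
  have hb : Computable₂ (fun (y : ℕ) (t : ℕ) => (c ((gl c X b y).getD t 0) y == b)) := by
    have h1 : Computable₂ (fun (y : ℕ) (t : ℕ) => c ((gl c X b y).getD t 0) y) :=
      hc.comp (((Primrec.list_getD 0).to_comp).comp (hgl.comp Computable.fst)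
        Computable.snd) Computable.fst
    have h2 : Primrec (fun a : Bool => (a == b)) := Primrec.dom_finite _
    exact h2.to_comp.comp h1
  exact (Primrec.and.to_comp).comp hX (computable_ball hb (Computable.list_length.comp hgl))

/-- If all elements of the reservoir have colour `b` with almost all elements of the reservoir,
then the greedy set is infinite. -/
lemma inf_greedy {c : ℕ → ℕ → Bool} {X : ℕ → Bool} {b : Bool} (hX : Inf X)
    (hfin : ∀ x, X x = true → ∃ N, ∀ y, N ≤ y → X y = true → c x y = b) :
    Inf (greedy c X b) := by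
  refine Set.infinite_of_not_bddAbove ?_
  rintro ⟨B, hB⟩
  have h1 : ∃ N, ∀ x ≤ B, X x = true → ∀ y, N ≤ y → X y = true → c x y = b := by
    choose! N hN using hfin
    refine ⟨(Finset.range (B + 1)).sup N, fun x hx hXx y hy => hN x hXx y ?_⟩
    exact le_trans (Finset.le_sup (f := N) (Finset.mem_range.2 (by omega))) hy
  obtain ⟨N, hN⟩ := h1
  obtain ⟨y, hy, hlt⟩ := hX.exists_gt (max N B)
  have h2 : N ≤ y := le_trans (le_max_left _ _) hlt.le
  have h3 : B < y := lt_of_le_of_lt (le_max_right _ _) hlt
  have h4 : greedy c X b y = true := by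
    rw [greedy_iff]
    refine ⟨hy, fun x hx hg => ?_⟩
    have hxB : x ≤ B := hB hg
    exact hN x hxB (greedy_iff.1 hg).1 y h2 hy
  have := hB h4
  omega

/-- The forcing lemma. -/
lemma forcing (c : ℕ → ℕ → Bool) (i : Bool) (P : (ℕ → Bool) → Prop)
    (hP : ∀ X x, P X → P (fun y => X y && (decide (x < y) && (c x y == i))))
    {X : ℕ → Bool} (hPX : P X) (hX : Inf X) :
    (∃ G, Inf G ∧ Hom c i G ∧ ∀ x, G x = true → X x = true) ∨
      ∃ X', P X' ∧ Inf X' ∧ (∀ x, X' x = true → X x = true) ∧
        ∀ x, X' x = true → ∃ N, ∀ y, N ≤ y → X' y = true → c x y = !i := by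
  classical
  by_contra hcon
  rw [not_or] at hcon
  obtain ⟨hno, hall⟩ := hcon
  push Not at hall
  let S := {X' : ℕ → Bool // P X' ∧ Inf X' ∧ ∀ x, X' x = true → X x = true}
  have hstep : ∀ s : S, ∃ x, s.1 x = true ∧
      Inf (fun y => s.1 y && (decide (x < y) && (c x y == i))) := by
    rintro ⟨X', h1, h2, h3⟩
    obtain ⟨x, hx, hN⟩ := hall X' h1 h2 h3
    refine ⟨x, hx, Set.infinite_of_not_bddAbove ?_⟩
    rintro ⟨B, hB⟩
    obtain ⟨y, hy, hXy, hc⟩ := hN (max (x + 1) (B + 1))
    have h4 : x < y := by
      have := le_max_left (x + 1) (B + 1); omega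
    have h5 : B < y := by
      have := le_max_right (x + 1) (B + 1); omega
    have h6 : c x y = i := by
      cases i <;> cases h : c x y <;> simp_all
    have h7 : y ≤ B := hB (by
      change (X' y && (decide (x < y) && (c x y == i))) = true
      simp [hXy, h4, h6])
    omega
  choose f hf1 hf2 using hstep
  let nxt : S → S := fun s => ⟨fun y => s.1 y && (decide (f s < y) && (c (f s) y == i)),
    hP _ _ s.2.1, hf2 s, fun x hx => s.2.2.2 x (by
      rw [Bool.and_eq_true] at hx; exact hx.1)⟩
  let s0 : S := ⟨X, hPX, hX, fun _ h => h⟩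
  let seq : ℕ → S := fun n => Nat.rec (motive := fun _ => S) s0 (fun _ s => nxt s) n
  have hseq : ∀ n, seq (n + 1) = nxt (seq n) := fun _ => rfl
  have hsub : ∀ n m, n ≤ m → ∀ y, (seq m).1 y = true → (seq n).1 y = true := by
    intro n m hnm
    induction m, hnm using Nat.le_induction with
    | base => exact fun y h => h
    | succ m _ ih =>
      intro y hy
      rw [hseq] at hy
      have hy' : ((seq m).1 y && (decide (f (seq m) < y) && (c (f (seq m)) y == i))) = true := hy
      rw [Bool.and_eq_true] at hy'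
      exact ih y hy'.1
  have hrel : ∀ n m, n < m → f (seq n) < f (seq m) ∧ c (f (seq n)) (f (seq m)) = i := by
    intro n m hnm
    have h1 := hsub (n + 1) m hnm (f (seq m)) (hf1 (seq m))
    rw [hseq] at h1
    have h2 : ((seq n).1 (f (seq m)) && (decide (f (seq n) < f (seq m)) &&
      (c (f (seq n)) (f (seq m)) == i))) = true := h1
    simp only [Bool.and_eq_true, decide_eq_true_eq, beq_iff_eq] at h2
    exact h2.2
  have hmono : StrictMono (fun n => f (seq n)) := fun n m h => (hrel n m h).1
  refine hno ⟨fun x => decide (∃ n, f (seq n) = x), ?_, ?_, ?_⟩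
  · refine Set.infinite_of_injective_forall_mem hmono.injective (fun n => ?_)
    simp
  · intro x y hxy hx hy
    simp only [decide_eq_true_eq] at hx hy
    obtain ⟨n, rfl⟩ := hx
    obtain ⟨m, rfl⟩ := hy
    exact (hrel n m (hmono.lt_iff_lt.1 hxy)).2
  · intro x hx
    simp only [decide_eq_true_eq] at hx
    obtain ⟨n, rfl⟩ := hx
    exact hsub 0 n (Nat.zero_le _) _ (hf1 (seq n))

lemma hom_greedy {c : ℕ → ℕ → Bool} {X : ℕ → Bool} {b : Bool} : Hom c b (greedy c X b) :=
  fun x _ hxy hx hy => (greedy_iff.1 hy).2 x hxy hx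

/-- Ramsey's theorem for pairs, inside a given infinite set. -/
lemma ramsey (c : ℕ → ℕ → Bool) {X : ℕ → Bool} (hX : Inf X) :
    ∃ i G, Inf G ∧ Hom c i G ∧ ∀ x, G x = true → X x = true := by
  rcases forcing c true (fun _ => True) (fun _ _ _ => trivial) trivial hX with h | ⟨X', -, h1, h2, h3⟩
  · obtain ⟨G, hG⟩ := h
    exact ⟨true, G, hG⟩
  · exact ⟨!true, greedy c X' (!true), inf_greedy h1 h3, hom_greedy,
      fun x hx => h2 x (greedy_iff.1 hx).1⟩

/-- Without computable homogeneous sets, every infinite computable set has infinite homogeneous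
subsets of both colours. -/
lemma both_colours {c : ℕ → ℕ → Bool} (hc : Computable₂ c)
    (hno : ∀ G i, Computable G → Inf G → Hom c i G → False)
    {X : ℕ → Bool} (hXc : Computable X) (hX : Inf X) (i : Bool) :
    ∃ G, Inf G ∧ Hom c i G ∧ ∀ x, G x = true → X x = true := by
  have hcl : ∀ (Y : ℕ → Bool) (x : ℕ), Computable Y →
      Computable (fun y => Y y && (decide (x < y) && (c x y == i))) := by
    intro Y x hY
    have h1 : Computable (fun y : ℕ => decide (x < y)) :=
      ((PrimrecRel.comp Primrec.nat_lt (Primrec.const x) Primrec.id).decide).to_comp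
    have h2 : Computable (fun y : ℕ => (c x y == i)) := by
      have h3 : Primrec (fun a : Bool => (a == i)) := Primrec.dom_finite _
      exact h3.to_comp.comp (hc.comp (Computable.const x) Computable.id)
    exact (Primrec.and.to_comp).comp hY ((Primrec.and.to_comp).comp h1 h2)
  rcases forcing c i (fun X => Computable X) hcl hXc hX with h | ⟨X', h0, h1, h2, h3⟩
  · exact h
  · exact (hno _ _ (computable_greedy (!i) hc h0) (inf_greedy h1 h3) hom_greedy).elim

/-- Every sequence of sequences has a cluster point. -/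
lemma cluster (f : ℕ → ℕ → Bool) : ∃ g : ℕ → Bool, ∀ N K, ∃ k, K ≤ k ∧ ∀ x < N, f k x = g x := by
  classical
  let U := Filter.hyperfilter ℕ
  refine ⟨fun x => decide (∀ᶠ k in (U : Filter ℕ), f k x = true), fun N K => ?_⟩
  have h1 : ∀ x, ∀ᶠ k in (U : Filter ℕ), f k x = decide (∀ᶠ k in (U : Filter ℕ), f k x = true) := by
    intro x
    by_cases h : ∀ᶠ k in (U : Filter ℕ), f k x = true
    · filter_upwards [h] with k hk
      simp [hk, h]
    · have h' := (Ultrafilter.eventually_not (f := U)).2 h
      filter_upwards [h'] with k hk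
      simp only [h, decide_false]
      simpa using hk
  have h2 : ∀ᶠ k in (U : Filter ℕ), ∀ x ∈ Finset.range N,
      f k x = decide (∀ᶠ k in (U : Filter ℕ), f k x = true) := by
    rw [Filter.eventually_all_finset]
    exact fun x _ => h1 x
  have h3 : ∀ᶠ k in (U : Filter ℕ), K ≤ k := by
    have h4 : ∀ᶠ k in (Filter.cofinite : Filter ℕ), K ≤ k := by
      rw [Nat.cofinite_eq_atTop]; exact Filter.eventually_ge_atTop K
    exact h4.filter_mono (Filter.hyperfilter_le_cofinite)
  obtain ⟨k, hk1, hk2⟩ := (h2.and h3).exists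
  exact ⟨k, hk2, fun x hx => hk1 x (Finset.mem_range.2 hx)⟩

/-- A nonempty countable closed set of Cantor space has an isolated point. -/
lemma isolated {D : Set (ℕ → Bool)} (hcl : IsClosed D) (hne : D.Nonempty) (hct : D.Countable) :
    ∃ M ∈ D, ∃ n, ∀ M' ∈ D, (∀ x < n, M' x = M x) → M' = M := by
  have : CompactSpace D := isCompact_iff_compactSpace.1 hcl.isCompact
  have : Nonempty D := hne.to_subtype
  have : Countable D := hct.to_subtype
  obtain ⟨M, N, hN⟩ := nonempty_interior_of_iUnion_of_closed (f := fun M : D => ({M} : Set D))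
    (fun _ => isClosed_singleton) (by ext x; simp)
  have hNM : N = M := by simpa using interior_subset hN
  subst hNM
  obtain ⟨V, hV1, hV2⟩ := isOpen_induced_iff.1 (isOpen_interior (s := ({N} : Set D)))
  have hNV : (N : ℕ → Bool) ∈ V := by
    have : N ∈ Subtype.val ⁻¹' V := by rw [hV2]; exact hN
    exact this
  obtain ⟨I, u, hu1, hu2⟩ := isOpen_pi_iff.1 hV1 _ hNV
  refine ⟨N, N.2, I.sup id + 1, fun M' hM' hag => ?_⟩
  have h1 : M' ∈ V := by
    refine hu2 fun x hx => ?_
    have hx' : x < I.sup id + 1 := Nat.lt_succ_of_le (Finset.le_sup (f := id) hx)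
    rw [hag x hx']
    exact (hu1 x hx).2
  have h2 : (⟨M', hM'⟩ : D) ∈ interior ({N} : Set D) := by
    rw [← hV2]; exact h1
  have h3 : (⟨M', hM'⟩ : D) = N := by simpa using interior_subset h2
  exact congrArg Subtype.val h3

/-- The sequences differing from a given one at finitely many places form a countable set. -/
lemma countable_of_findiff {D : Set (ℕ → Bool)} {M : ℕ → Bool}
    (h : ∀ M' ∈ D, {x | M' x ≠ M x}.Finite) : D.Countable := by
  classical
  refine (Set.countable_range (fun (F : Finset ℕ) (x : ℕ) => if x ∈ F then !(M x) else M x)).mono ?_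
  intro M' hM'
  refine ⟨(h M' hM').toFinset, ?_⟩
  funext x
  by_cases hx : M' x = M x
  · simp [hx]
  · have h1 : (!(M x)) = M' x := by
      cases h2 : M x <;> cases h3 : M' x <;> simp_all
    simp [hx, h1]

end Pool.Agent.H326NC
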