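import Mathlib
import Pool.Agent.H326NC.Comb

namespace Pool.Agent.H326NC

open Pool.Agent.Results.MP_743c94_lc.Full

/-- Closed choice on `n` points: an instance is a sequence `p` such that some `i < n` is not
refuted, that is, `p (n * m + i) = 0` for all `m`; the answer, any such `i`, is given as the
characteristic function of `{i}`. -/
def Choice (n : ℕ) : Problem where
  dom := {p | ∃ i < n, ∀ m, p (n * m + i) = false}
  sol := fun p => {q | ∃ i < n, (q = fun k => decide (k = i)) ∧ ∀ m, p (n * m + i) = false}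

lemma computable_pre {α : Type} [Primcodable α] {f : α → ℕ → Bool} (hf : Computable₂ f)
    {m : α → ℕ} (hm : Computable m) : Computable (fun a => pre (f a) (m a)) := by
  have h0 : ∀ (a : α) (k : ℕ), pre (f a) k =
      Nat.rec (motive := fun _ => List Bool) [] (fun i l => l ++ [f a i]) k := by
    intro a k
    induction k with
    | zero => rfl
    | succ k ih =>
      have h1 : pre (f a) (k + 1) = pre (f a) k ++ [f a k] := by
        unfold pre; rw [List.range_succ, List.map_append]; rfl
      rw [h1, ih]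
  have h : Computable₂ (fun (a : α) (p : ℕ × List Bool) => p.2 ++ [f a p.1]) :=
    Computable.list_concat.comp (Computable.snd.comp Computable.snd)
      (hf.comp Computable.fst (Computable.fst.comp Computable.snd))
  have h2 := Computable.nat_rec hm (Computable.const ([] : List Bool)) h
  exact h2.of_eq fun a => (h0 a (m a)).symm

lemma computable_join {α : Type} [Primcodable α] {p q : α → ℕ → Bool} (hp : Computable₂ p)
    (hq : Computable₂ q) : Computable₂ (fun a n => join (p a) (q a) n) := by
  have h1 : Computable (fun x : α × ℕ => decide (x.2 % 2 = 0)) :=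
    ((PrimrecRel.comp Primrec.eq (Primrec.nat_mod.comp Primrec.id (Primrec.const 2))
      (Primrec.const 0)).decide).to_comp.comp Computable.snd
  have h2 : Computable (fun x : α × ℕ => x.2 / 2) :=
    (Primrec.nat_div.comp Primrec.id (Primrec.const 2)).to_comp.comp Computable.snd
  have h3 := Computable.cond h1 (hp.comp Computable.fst h2) (hq.comp Computable.fst h2)
  refine h3.of_eq fun x => ?_
  by_cases h : x.2 % 2 = 0 <;> simp [join, h]

lemma computable_of_computes {Φ : List Bool → ℕ → Option Bool} (hΦ : Computable₂ Φ)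
    {p q : ℕ → Bool} (hp : Computable p) (h : Computes Φ p q) : Computable q := by
  have h1 : Computable₂ (fun (n : ℕ) (k : ℕ) => Φ (pre p k) n) :=
    hΦ.comp (computable_pre (f := fun (_ : ℕ × ℕ) => p) (hp.comp Computable.snd)
      Computable.snd) Computable.fst
  have h2 := Partrec.rfindOpt h1
  refine h2.of_eq fun n => ?_
  change _ = Part.some (q n)
  rw [Part.eq_some_iff]
  have hd : (Nat.rfindOpt fun k => Φ (pre p k) n).Dom := by
    rw [Nat.rfindOpt_dom]
    obtain ⟨k, hk⟩ := (h n).1
    exact ⟨k, q n, hk⟩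
  have h3 := Part.get_mem hd
  obtain ⟨k, hk⟩ := Nat.rfindOpt_spec h3
  have h4 := (h n).2 k _ hk
  rwa [h4] at h3

lemma primrec_two_pow : Primrec (fun n : ℕ => 2 ^ n) := by
  have h := Primrec.nat_rec₁ (f := fun (_ : ℕ) (b : ℕ) => 2 * b) 1
    ((Primrec.nat_mul.comp (Primrec.const 2) Primrec.snd))
  refine h.of_eq fun n => ?_
  induction n with
  | zero => rfl
  | succ n ih => rw [pow_succ, ← ih]; ring

lemma computable_testBit : Computable₂ Nat.testBit := by
  have h1 : Primrec (fun x : ℕ × ℕ => decide (x.1 / 2 ^ x.2 % 2 = 1)) :=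
    (PrimrecRel.comp Primrec.eq (Primrec.nat_mod.comp (Primrec.nat_div.comp Primrec.fst
      (primrec_two_pow.comp Primrec.snd)) (Primrec.const 2)) (Primrec.const 1)).decide
  exact h1.to_comp.of_eq fun x => (Nat.testBit_eq_decide_div_mod_eq).symm

lemma rt_sol (c : ℕ → Bool) : ∃ h, h ∈ RT22.sol c := by
  obtain ⟨i, G, h1, h2, -⟩ := ramsey (fun x y => c (Nat.pair x y)) (X := fun _ => true)
    (by simpa [Inf] using Set.infinite_univ)
  exact ⟨G, h1, i, h2⟩

lemma extract {P : Problem} (hred : WeihrauchReducible (prod NON P) RT22) :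
    ∃ Φ Ψ : List Bool → ℕ → Option Bool, Computable₂ Φ ∧ Computable₂ Ψ ∧
      ∀ r ∈ (prod NON P).dom, ∃ c : ℕ → Bool, Computes Φ r c ∧
        ∀ h ∈ RT22.sol c, ∃ s ∈ (prod NON P).sol r, Computes Ψ (join r h) s := by
  classical
  obtain ⟨H, K, ⟨Ψ, hΨ, hH⟩, ⟨Φ, hΦ, hK⟩, hG⟩ := hred
  refine ⟨Φ, Ψ, hΦ, hΨ, fun r hr => ?_⟩
  choose g0 hg0 using rt_sol
  have hG0 : IsRealizer (fun c => Part.some (g0 c)) RT22 :=
    fun p _ => ⟨g0 p, Part.mem_some _, hg0 p⟩
  obtain ⟨q, hq, -⟩ := hG _ hG0 r hr
  obtain ⟨c, hc, -⟩ := Part.mem_bind_iff.1 hq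
  refine ⟨c, hK r c hc, fun h hh => ?_⟩
  have hGr : IsRealizer (fun x => if x = c then Part.some h else Part.some (g0 x)) RT22 := by
    intro p _
    by_cases hp : p = c
    · subst hp
      exact ⟨h, by simp, hh⟩
    · exact ⟨g0 p, by simp [hp], hg0 p⟩
  obtain ⟨s, hs, hsol⟩ := hG _ hGr r hr
  obtain ⟨x, hx, hs1⟩ := Part.mem_bind_iff.1 hs
  obtain ⟨y, hy, hs2⟩ := Part.mem_bind_iff.1 hs1
  have hxc : x = c := Part.mem_unique hx hc
  subst hxc
  have hyh : y = h := by simpa using hy
  subst hyh
  exact ⟨s, hsol, hH _ _ hs2⟩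

/-- The colouring of pairs coded by a sequence. -/
def colr (c : ℕ → Bool) (x y : ℕ) : Bool := c (Nat.pair x y)

lemma computable_colr {c : ℕ → Bool} (hc : Computable c) : Computable₂ (colr c) :=
  hc.comp (Primrec₂.natPair.to_comp)

lemma no_comp {P : Problem} {Ψ : List Bool → ℕ → Option Bool} (hΨ : Computable₂ Ψ)
    {r c : ℕ → Bool} (hr : Computable r)
    (hsol : ∀ h ∈ RT22.sol c, ∃ s ∈ (prod NON P).sol r, Computes Ψ (join r h) s)
    (G : ℕ → Bool) (i : Bool) (hGc : Computable G) (hGi : Inf G) (hG : Hom (colr c) i G) :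
    False := by
  obtain ⟨s, hs, hcs⟩ := hsol G ⟨hGi, i, hG⟩
  have hj : Computable (join r G) := by
    have := computable_join (α := ℕ) (p := fun _ => r) (q := fun _ => G)
      (hr.comp Computable.snd) (hGc.comp Computable.snd)
    exact this.comp (Computable.const 0) Computable.id
  have hsc : Computable s := computable_of_computes hΨ hj hcs
  have hl : Computable (fun k => (left s k).toNat) := by
    have h1 : Computable (fun k : ℕ => s (2 * k)) := hsc.comp (Primrec.nat_double.to_comp)
    exact ((Primrec.dom_finite Bool.toNat).to_comp).comp h1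
  exact hs.1 (Partrec.turingReducible hl.partrec)

end Pool.Agent.H326NC
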