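import Mathlib
import Pool.Agent.H326NC.Red

namespace Pool.Agent.H326NC

open Pool.Agent.Results.MP_743c94_lc.Full

lemma ball_congr {f g : ℕ → Bool} {n : ℕ} (h : ∀ k < n, f k = g k) : ball f n = ball g n := by
  induction n with
  | zero => rfl
  | succ n ih =>
    have h0 : ∀ f : ℕ → Bool, ball f (n + 1) = (ball f n && f n) := fun _ => rfl
    rw [h0, h0, ih fun k hk => h k (by omega), h n (by omega)]

lemma ball_false {f : ℕ → Bool} {n : ℕ} : ball f n = false ↔ ∃ k < n, f k = false := by
  rw [← Bool.not_eq_true, ball_iff]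
  push Not
  simp

/-- Majority of the three sequences coded by `Z`. -/
def maj (Z : ℕ → Bool) (x : ℕ) : Bool :=
  (Z (3 * x) && Z (3 * x + 1)) || ((Z (3 * x) && Z (3 * x + 2)) ||
    (Z (3 * x + 1) && Z (3 * x + 2)))

lemma maj_congr {Z Z' : ℕ → Bool} {x : ℕ} (h : ∀ y < 3 * x + 3, Z y = Z' y) :
    maj Z x = maj Z' x := by
  unfold maj
  rw [h (3 * x) (by omega), h (3 * x + 1) (by omega), h (3 * x + 2) (by omega)]

section
variable (W : ℕ → Bool) (jj : ℕ → ℕ) (ii : ℕ → Bool) (ww : ℕ → ℕ)

/-- `Z` violates condition `a`. -/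
def viol (Z : ℕ → Bool) (a : ℕ) : Bool :=
  W a && !(ball (fun v => (v == ww a) || !(ball (fun x => !((jj a).testBit x) ||
    (Z (3 * x + v) == ii a)) a)) 3)

variable {W jj ii ww}

lemma viol_congr {Z Z' : ℕ → Bool} {a : ℕ} (h : ∀ y < 3 * a + 3, Z y = Z' y) :
    viol W jj ii ww Z a = viol W jj ii ww Z' a := by
  unfold viol
  congr 2
  refine ball_congr fun v hv => ?_
  congr 2
  refine ball_congr fun x hx => ?_
  rw [h (3 * x + v) (by omega)]

lemma viol_false {Z : ℕ → Bool} {a : ℕ} : viol W jj ii ww Z a = false ↔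
    (W a = true → ∀ v < 3, v ≠ ww a → ∃ x < a, (jj a).testBit x = true ∧
      Z (3 * x + v) ≠ ii a) := by
  unfold viol
  rw [Bool.and_eq_false_iff]
  constructor
  · rintro (h | h) hW v hv hvw
    · rw [hW] at h; exact absurd h (by simp)
    · have h1 : ball (fun v => (v == ww a) || !(ball (fun x => !((jj a).testBit x) ||
        (Z (3 * x + v) == ii a)) a)) 3 = true := by simpa using h
      have h2 := ball_iff.1 h1 v hv
      have h3 : ball (fun x => !((jj a).testBit x) || (Z (3 * x + v) == ii a)) a = false := by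
        simpa [hvw] using h2
      obtain ⟨x, hx, hx2⟩ := ball_false.1 h3
      refine ⟨x, hx, ?_⟩
      simpa using hx2
  · intro h
    by_cases hW : W a = true
    · right
      have h1 : ball (fun v => (v == ww a) || !(ball (fun x => !((jj a).testBit x) ||
        (Z (3 * x + v) == ii a)) a)) 3 = true := by
        rw [ball_iff]
        intro v hv
        by_cases hvw : v = ww a
        · simp [hvw]
        · obtain ⟨x, hx, hx1, hx2⟩ := h hW v hv hvw
          have h3 : ball (fun x => !((jj a).testBit x) || (Z (3 * x + v) == ii a)) a = false :=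
            ball_false.2 ⟨x, hx, by simp [hx1, hx2]⟩
          simp [h3]
      rw [h1]; rfl
    · left; simpa using hW

lemma cont_ball {f : (ℕ → Bool) → ℕ → Bool} (hf : ∀ k, Continuous (fun Z => f Z k)) (n : ℕ) :
    Continuous (fun Z => ball (f Z) n) := by
  induction n with
  | zero => exact continuous_const
  | succ n ih =>
    exact (continuous_of_discreteTopology (f := fun p : Bool × Bool => p.1 && p.2)).comp
      (ih.prodMk (hf n))

lemma cont_viol (a : ℕ) : Continuous (fun Z => viol W jj ii ww Z a) := by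
  have hb : ∀ g : Bool → Bool, Continuous g := fun g => continuous_of_discreteTopology
  have h1 : ∀ v x, Continuous (fun Z : ℕ → Bool => !((jj a).testBit x) ||
      (Z (3 * x + v) == ii a)) := fun v x =>
    (hb (fun b => !((jj a).testBit x) || (b == ii a))).comp (continuous_apply (3 * x + v))
  have h2 : ∀ v, Continuous (fun Z : ℕ → Bool => (v == ww a) ||
      !(ball (fun x => !((jj a).testBit x) || (Z (3 * x + v) == ii a)) a)) := fun v =>
    (hb (fun b => (v == ww a) || !b)).comp (cont_ball (fun x => h1 v x) a)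
  exact (hb (fun b => W a && !b)).comp (cont_ball h2 3)

lemma cont_maj : Continuous maj := by
  refine continuous_pi fun x => ?_
  have h1 : Continuous (fun Z : ℕ → Bool => (Z (3 * x), Z (3 * x + 1), Z (3 * x + 2))) :=
    (continuous_apply _).prodMk ((continuous_apply _).prodMk (continuous_apply _))
  exact (continuous_of_discreteTopology (f := fun p : Bool × Bool × Bool =>
    (p.1 && p.2.1) || ((p.1 && p.2.2) || (p.2.1 && p.2.2)))).comp h1

/-- The majorities of the triples of splittings. -/
def Dset (W : ℕ → Bool) (jj : ℕ → ℕ) (ii : ℕ → Bool) (ww : ℕ → ℕ) : Set (ℕ → Bool) :=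
  maj '' {Z | ∀ a, viol W jj ii ww Z a = false}

lemma closed_D : IsClosed (Dset W jj ii ww) := by
  have h1 : IsClosed {Z | ∀ a, viol W jj ii ww Z a = false} := by
    have : {Z | ∀ a, viol W jj ii ww Z a = false} =
        ⋂ a, (fun Z => viol W jj ii ww Z a) ⁻¹' {false} := by
      ext Z; simp
    rw [this]
    exact isClosed_iInter fun a => (isClosed_discrete _).preimage (cont_viol a)
  exact (h1.isCompact.image cont_maj).isClosed

lemma nonempty_D (hB : ∀ v < 3, ∀ N, ∃ Y : ℕ → Bool, ∀ a < N, W a = true → ww a ≠ v →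
      ∃ x < a, (jj a).testBit x = true ∧ Y x ≠ ii a) : (Dset W jj ii ww).Nonempty := by
  have h1 : ∀ v < 3, ∃ Y : ℕ → Bool, ∀ a, W a = true → ww a ≠ v →
      ∃ x < a, (jj a).testBit x = true ∧ Y x ≠ ii a := by
    intro v hv
    choose Y hY using hB v hv
    obtain ⟨g, hg⟩ := cluster Y
    refine ⟨g, fun a hW hw => ?_⟩
    obtain ⟨k, hk, hk2⟩ := hg a (a + 1)
    obtain ⟨x, hx, hx1, hx2⟩ := hY k a (by omega) hW hw
    exact ⟨x, hx, hx1, by rw [← hk2 x hx]; exact hx2⟩
  choose! Y hY using h1
  refine ⟨_, fun m => Y (m % 3) (m / 3), fun a => viol_false.2 fun hW v hv hvw => ?_, rfl⟩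
  obtain ⟨x, hx, hx1, hx2⟩ := hY v hv a hW (Ne.symm hvw)
  refine ⟨x, hx, hx1, ?_⟩
  have e1 : (3 * x + v) % 3 = v := by omega
  have e2 : (3 * x + v) / 3 = x := by omega
  rw [e1, e2]
  exact hx2

lemma maj_cases {Z : ℕ → Bool} {x : ℕ} {i : Bool} (h : maj Z x = i) :
    (Z (3 * x + 0) = i ∧ Z (3 * x + 1) = i) ∨ (Z (3 * x + 0) = i ∧ Z (3 * x + 2) = i) ∨
      (Z (3 * x + 1) = i ∧ Z (3 * x + 2) = i) := by
  unfold maj at h
  rw [Nat.add_zero]
  cases h0 : Z (3 * x) <;> cases h1 : Z (3 * x + 1) <;> cases h2 : Z (3 * x + 2) <;>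
    cases i <;> simp_all

lemma D_small {c : ℕ → ℕ → Bool}
    (hA : ∀ G i, Inf G → Hom c i G → ∃ a, W a = true ∧ ii a = i ∧
      ∀ x, (jj a).testBit x = true → G x = true)
    {M : ℕ → Bool} (hM : M ∈ Dset W jj ii ww) {G : ℕ → Bool} {i : Bool} (hG : Inf G)
    (hH : Hom c i G) (hsub : ∀ x, G x = true → M x = i) : False := by
  obtain ⟨Z, hZ, rfl⟩ := hM
  have key : ∀ v w, v < 3 → w < 3 → v ≠ w →
      ¬ Inf (fun x => G x && ((Z (3 * x + v) == i) && (Z (3 * x + w) == i))) := by
    intro v w hv hw hvw hinf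
    obtain ⟨a, hW, hi, hx⟩ := hA _ i hinf (by
      intro x y hxy hx hy
      simp only [Bool.and_eq_true] at hx hy
      exact hH x y hxy hx.1 hy.1)
    have h1 := viol_false.1 (hZ a) hW
    have h2 : v = ww a := by
      by_contra hne
      obtain ⟨x, -, hx1, hx2⟩ := h1 v hv hne
      have h3 := hx x hx1
      simp only [Bool.and_eq_true, beq_iff_eq] at h3
      exact hx2 (by rw [h3.2.1, hi])
    have h3 : w = ww a := by
      by_contra hne
      obtain ⟨x, -, hx1, hx2⟩ := h1 w hw hne
      have h3 := hx x hx1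
      simp only [Bool.and_eq_true, beq_iff_eq] at h3
      exact hx2 (by rw [h3.2.2, hi])
    exact hvw (h2.trans h3.symm)
  have k1 := Set.not_infinite.1 (key 0 1 (by omega) (by omega) (by omega))
  have k2 := Set.not_infinite.1 (key 0 2 (by omega) (by omega) (by omega))
  have k3 := Set.not_infinite.1 (key 1 2 (by omega) (by omega) (by omega))
  refine hG ((k1.union (k2.union k3)).subset ?_)
  intro x hx
  have hx' : G x = true := hx
  rcases maj_cases (hsub x hx') with h | h | h
  · left
    have h1 := h.1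
    rw [Nat.add_zero] at h1
    simp [hx', h1, h.2]
  · right; left
    have h1 := h.1
    rw [Nat.add_zero] at h1
    simp [hx', h1, h.2]
  · right; right; simp [hx', h.1, h.2]

lemma D_findiff {c : ℕ → ℕ → Bool}
    (hA : ∀ G i, Inf G → Hom c i G → ∃ a, W a = true ∧ ii a = i ∧
      ∀ x, (jj a).testBit x = true → G x = true)
    {M M' : ℕ → Bool} (hM : M ∈ Dset W jj ii ww) (hM' : M' ∈ Dset W jj ii ww) :
    {x | M' x ≠ M x}.Finite := by
  have key : ∀ b : Bool, ¬ Inf (fun x => (M' x == b) && (M x == !b)) := by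
    intro b hinf
    obtain ⟨i, G, h1, h2, h3⟩ := ramsey c hinf
    have h4 : ∀ x, G x = true → M' x = b ∧ M x = !b := by
      intro x hx
      have := h3 x hx
      simpa using this
    by_cases hib : i = b
    · subst hib
      exact D_small hA hM' h1 h2 fun x hx => (h4 x hx).1
    · have hib' : i = !b := by cases i <;> cases b <;> simp_all
      subst hib'
      exact D_small hA hM h1 h2 fun x hx => (h4 x hx).2
  have k1 := Set.not_infinite.1 (key true)
  have k2 := Set.not_infinite.1 (key false)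
  refine (k1.union k2).subset ?_
  intro x hx
  have hx' : M' x ≠ M x := hx
  cases h1 : M' x <;> cases h2 : M x <;> simp_all

end

end Pool.Agent.H326NC
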