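import Mathlib
import Pool.Agent.H326NC.Core

namespace Pool.Agent.H326NC

open Pool.Agent.Results.MP_743c94_lc.Full

section
variable {W : ℕ → Bool} {jj : ℕ → ℕ} {ii : ℕ → Bool} {ww : ℕ → ℕ}

/-- The search condition: all words of length `3 k + 3` that violate no condition below `k` and
whose majority agrees with `μ` below `n` have majority `b` at `m`. -/
def chk (W : ℕ → Bool) (jj : ℕ → ℕ) (ii : ℕ → Bool) (ww : ℕ → ℕ) (n μ m : ℕ) (b : Bool)
    (t : ℕ) : Bool :=
  ball (fun z => !(ball (fun a => !(viol W jj ii ww z.testBit a)) (m + n + t)) ||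
    (!(ball (fun x => maj z.testBit x == μ.testBit x) n) || (maj z.testBit m == b)))
    (2 ^ (3 * (m + n + t) + 3))

lemma chk_iff {n μ m : ℕ} {b : Bool} {t : ℕ} : chk W jj ii ww n μ m b t = true ↔
    ∀ z < 2 ^ (3 * (m + n + t) + 3), (∀ a < m + n + t, viol W jj ii ww z.testBit a = false) →
      (∀ x < n, maj z.testBit x = μ.testBit x) → maj z.testBit m = b := by
  unfold chk
  rw [ball_iff]
  refine forall_congr' fun z => forall_congr' fun _ => ?_
  have h1 : (∀ a < m + n + t, viol W jj ii ww z.testBit a = false) ↔
      ball (fun a => !(viol W jj ii ww z.testBit a)) (m + n + t) = true := by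
    rw [ball_iff]; simp
  have h2 : (∀ x < n, maj z.testBit x = μ.testBit x) ↔
      ball (fun x => maj z.testBit x == μ.testBit x) n = true := by
    rw [ball_iff]; simp
  rw [h1, h2]
  generalize ball (fun a => !(viol W jj ii ww z.testBit a)) (m + n + t) = p
  generalize ball (fun x => maj z.testBit x == μ.testBit x) n = q
  cases p <;> cases q <;> simp

lemma exists_word (Z : ℕ → Bool) (k : ℕ) : ∃ z < 2 ^ k, ∀ x < k, z.testBit x = Z x :=
  ⟨Nat.ofBits (fun i : Fin k => Z i), Nat.ofBits_lt_two_pow _, fun x hx =>
    Nat.testBit_ofBits_lt _ x hx⟩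

lemma chk_sound {n μ m : ℕ} {b : Bool} {t : ℕ} {M : ℕ → Bool} (hM : M ∈ Dset W jj ii ww)
    (hμ : ∀ x < n, μ.testBit x = M x) (h : chk W jj ii ww n μ m b t = true) : M m = b := by
  obtain ⟨Z, hZ, rfl⟩ := hM
  rw [chk_iff] at h
  obtain ⟨z, hz, hzZ⟩ := exists_word Z (3 * (m + n + t) + 3)
  have h1 := h z hz (fun a ha => ?_) (fun x hx => ?_)
  · rw [← h1]
    exact (maj_congr fun y hy => hzZ y (by omega)).symm
  · rw [← hZ a]
    exact viol_congr fun y hy => hzZ y (by omega)
  · rw [hμ x hx]
    exact maj_congr fun y hy => hzZ y (by omega)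

lemma chk_complete {n μ m : ℕ} {M : ℕ → Bool}
    (hiso : ∀ M' ∈ Dset W jj ii ww, (∀ x < n, M' x = M x) → M' = M)
    (hμ : ∀ x < n, μ.testBit x = M x) : ∃ t, chk W jj ii ww n μ m (M m) t = true := by
  by_contra hcon
  push Not at hcon
  have h1 : ∀ t, ∃ z : ℕ, (∀ a < m + n + t, viol W jj ii ww z.testBit a = false) ∧
      (∀ x < n, maj z.testBit x = μ.testBit x) ∧ maj z.testBit m ≠ M m := by
    intro t
    have h2 := hcon t
    rw [Ne, chk_iff] at h2
    push Not at h2
    obtain ⟨z, -, h3, h4, h5⟩ := h2
    exact ⟨z, h3, h4, h5⟩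
  choose z hz1 hz2 hz3 using h1
  obtain ⟨Z, hZ⟩ := cluster (fun t => (z t).testBit)
  have h2 : ∀ a, viol W jj ii ww Z a = false := by
    intro a
    obtain ⟨t, ht, hag⟩ := hZ (3 * a + 3) (a + 1)
    rw [← hz1 t a (by omega)]
    exact viol_congr fun y hy => (hag y hy).symm
  have h3 : maj Z = M := by
    refine hiso _ ⟨Z, h2, rfl⟩ fun x hx => ?_
    obtain ⟨t, -, hag⟩ := hZ (3 * x + 3) 0
    rw [← hμ x hx, ← hz2 t x hx]
    exact maj_congr fun y hy => (hag y hy).symm
  obtain ⟨t, -, hag⟩ := hZ (3 * m + 3) 0
  refine hz3 t ?_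
  rw [← h3]
  exact maj_congr fun y hy => hag y hy

lemma comp_not {α : Type} [Primcodable α] {f : α → Bool} (hf : Computable f) :
    Computable (fun a => !(f a)) := (Primrec.not.to_comp).comp hf

lemma comp_or {α : Type} [Primcodable α] {f g : α → Bool} (hf : Computable f)
    (hg : Computable g) : Computable (fun a => (f a || g a)) := (Primrec.or.to_comp).comp hf hg

lemma comp_and {α : Type} [Primcodable α] {f g : α → Bool} (hf : Computable f)
    (hg : Computable g) : Computable (fun a => (f a && g a)) := (Primrec.and.to_comp).comp hf hg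

lemma comp_beq {α : Type} [Primcodable α] {f g : α → Bool} (hf : Computable f)
    (hg : Computable g) : Computable (fun a => (f a == g a)) := by
  have h : Primrec (fun p : Bool × Bool => (p.1 == p.2)) := Primrec.dom_finite _
  exact h.to_comp.comp (hf.pair hg)

lemma comp_nbeq {α : Type} [Primcodable α] {f g : α → ℕ} (hf : Computable f)
    (hg : Computable g) : Computable (fun a => (f a == g a)) := by
  have h : Primrec (fun p : ℕ × ℕ => decide (p.1 = p.2)) :=
    (PrimrecRel.comp Primrec.eq Primrec.fst Primrec.snd).decide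
  refine (h.to_comp.comp (hf.pair hg)).of_eq fun a => ?_
  simp [beq_eq_decide]

lemma comp_lin {α : Type} [Primcodable α] {f g : α → ℕ} (hf : Computable f)
    (hg : Computable g) : Computable (fun a => 3 * f a + g a) := by
  have h : Primrec (fun p : ℕ × ℕ => 3 * p.1 + p.2) :=
    Primrec.nat_add.comp (Primrec.nat_mul.comp (Primrec.const 3) Primrec.fst) Primrec.snd
  exact h.to_comp.comp (hf.pair hg)

lemma comp_viol (hW : Computable W) (hjj : Computable jj) (hii : Computable ii)
    (hww : Computable ww) : Computable₂ (fun (z a : ℕ) => viol W jj ii ww z.testBit a) := by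
  have h1 : Computable₂ (fun (q : (ℕ × ℕ) × ℕ) (x : ℕ) =>
      !((jj q.1.2).testBit x) || ((q.1.1.testBit (3 * x + q.2)) == ii q.1.2)) := by
    refine comp_or (comp_not ?_) (comp_beq ?_ ?_)
    · exact computable_testBit.comp (hjj.comp (Computable.snd.comp
        (Computable.fst.comp Computable.fst))) Computable.snd
    · exact computable_testBit.comp (Computable.fst.comp (Computable.fst.comp Computable.fst))
        (comp_lin Computable.snd (Computable.snd.comp Computable.fst))
    · exact hii.comp (Computable.snd.comp (Computable.fst.comp Computable.fst))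
  have h2 : Computable₂ (fun (q : ℕ × ℕ) (v : ℕ) => (v == ww q.2) ||
      !(ball (fun x => !((jj q.2).testBit x) || (q.1.testBit (3 * x + v) == ii q.2)) q.2)) := by
    refine comp_or (comp_nbeq Computable.snd (hww.comp (Computable.snd.comp Computable.fst)))
      (comp_not ?_)
    exact computable_ball h1 (Computable.snd.comp Computable.fst)
  exact comp_and (hW.comp Computable.snd) (comp_not (computable_ball h2 (Computable.const 3)))

lemma comp_maj : Computable₂ (fun (z x : ℕ) => maj z.testBit x) := by
  have h : ∀ i : ℕ, Computable (fun q : ℕ × ℕ => q.1.testBit (3 * q.2 + i)) := fun i =>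
    computable_testBit.comp Computable.fst (comp_lin Computable.snd (Computable.const i))
  exact comp_or (comp_and (h 0) (h 1)) (comp_or (comp_and (h 0) (h 2)) (comp_and (h 1) (h 2)))

lemma comp_chk (hW : Computable W) (hjj : Computable jj) (hii : Computable ii)
    (hww : Computable ww) (n μ : ℕ) (b : Bool) :
    Computable₂ (fun (m t : ℕ) => chk W jj ii ww n μ m b t) := by
  have hk : Computable (fun q : ℕ × ℕ => q.1 + n + q.2) :=
    (Primrec.nat_add.comp (Primrec.nat_add.comp Primrec.fst (Primrec.const n))
      Primrec.snd).to_comp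
  have h1 : Computable (fun q : (ℕ × ℕ) × ℕ =>
      ball (fun a => !(viol W jj ii ww q.2.testBit a)) (q.1.1 + n + q.1.2)) := by
    refine computable_ball (f := fun (q : (ℕ × ℕ) × ℕ) a => !(viol W jj ii ww q.2.testBit a))
      ?_ (hk.comp Computable.fst)
    exact comp_not ((comp_viol hW hjj hii hww).comp (Computable.snd.comp Computable.fst)
      Computable.snd)
  have h2 : Computable (fun q : (ℕ × ℕ) × ℕ =>
      ball (fun x => maj q.2.testBit x == μ.testBit x) n) := by
    refine computable_ball (f := fun (q : (ℕ × ℕ) × ℕ) x => maj q.2.testBit x == μ.testBit x)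
      ?_ (Computable.const n)
    exact comp_beq (comp_maj.comp (Computable.snd.comp Computable.fst) Computable.snd)
      (computable_testBit.comp (Computable.const μ) Computable.snd)
  have h3 : Computable (fun q : (ℕ × ℕ) × ℕ => maj q.2.testBit q.1.1 == b) :=
    comp_beq (comp_maj.comp Computable.snd (Computable.fst.comp Computable.fst))
      (Computable.const b)
  have h4 : Computable₂ (fun (q : ℕ × ℕ) (z : ℕ) =>
      !(ball (fun a => !(viol W jj ii ww z.testBit a)) (q.1 + n + q.2)) ||
    (!(ball (fun x => maj z.testBit x == μ.testBit x) n) || (maj z.testBit q.1 == b))) :=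
    comp_or (comp_not h1) (comp_or (comp_not h2) h3)
  have h5 : Computable (fun q : ℕ × ℕ => 2 ^ (3 * (q.1 + n + q.2) + 3)) :=
    (primrec_two_pow.to_comp).comp (comp_lin hk (Computable.const 3))
  exact computable_ball h4 h5

/-- An isolated member is computable. -/
lemma computable_member (hW : Computable W) (hjj : Computable jj) (hii : Computable ii)
    (hww : Computable ww) {M : ℕ → Bool} (hM : M ∈ Dset W jj ii ww) {n : ℕ}
    (hiso : ∀ M' ∈ Dset W jj ii ww, (∀ x < n, M' x = M x) → M' = M) : Computable M := by
  obtain ⟨μ, -, hμ⟩ := exists_word M n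
  let s : ℕ → ℕ → Option Bool := fun m t => bif chk W jj ii ww n μ m true t then some true else
    bif chk W jj ii ww n μ m false t then some false else none
  have hs : Computable₂ s :=
    Computable.cond (comp_chk hW hjj hii hww n μ true) (Computable.const _)
      (Computable.cond (comp_chk hW hjj hii hww n μ false) (Computable.const _)
        (Computable.const _))
  have hsound : ∀ m t b, s m t = some b → M m = b := by
    intro m t b h
    change (bif chk W jj ii ww n μ m true t then some true else
      bif chk W jj ii ww n μ m false t then some false else none) = some b at h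
    cases h1 : chk W jj ii ww n μ m true t
    · rw [h1, cond_false] at h
      cases h2 : chk W jj ii ww n μ m false t
      · rw [h2, cond_false] at h; exact absurd h (by simp)
      · rw [h2, cond_true, Option.some.injEq] at h
        rw [← h]; exact chk_sound hM hμ h2
    · rw [h1, cond_true, Option.some.injEq] at h
      rw [← h]; exact chk_sound hM hμ h1
  have hcomplete : ∀ m, ∃ t b, s m t = some b := by
    intro m
    obtain ⟨t, ht⟩ := chk_complete (m := m) hiso hμ
    refine ⟨t, ?_⟩
    change ∃ b, (bif chk W jj ii ww n μ m true t then some true else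
      bif chk W jj ii ww n μ m false t then some false else none) = some b
    cases h1 : chk W jj ii ww n μ m true t
    · cases h2 : M m
      · rw [h2] at ht
        rw [ht]; exact ⟨false, rfl⟩
      · rw [h2, h1] at ht; exact absurd ht (by simp)
    · exact ⟨true, rfl⟩
  have h2 := Partrec.rfindOpt hs
  refine h2.of_eq fun m => ?_
  change _ = Part.some (M m)
  rw [Part.eq_some_iff]
  have hd : (Nat.rfindOpt (s m)).Dom := by
    rw [Nat.rfindOpt_dom]
    obtain ⟨t, b, h⟩ := hcomplete m
    exact ⟨t, b, h⟩
  have h3 := Part.get_mem hd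
  obtain ⟨t, ht⟩ := Nat.rfindOpt_spec h3
  rwa [← hsound m t _ ht] at h3

/-- The combinatorial core. -/
theorem core {c : ℕ → ℕ → Bool} (hc : Computable₂ c)
    (hno : ∀ G i, Computable G → Inf G → Hom c i G → False)
    (hW : Computable W) (hjj : Computable jj) (hii : Computable ii) (hww : Computable ww)
    (hA : ∀ G i, Inf G → Hom c i G → ∃ a, W a = true ∧ ii a = i ∧
      ∀ x, (jj a).testBit x = true → G x = true)
    (hB : ∀ v < 3, ∀ N, ∃ Y : ℕ → Bool, ∀ a < N, W a = true → ww a ≠ v →
      ∃ x < a, (jj a).testBit x = true ∧ Y x ≠ ii a) : False := by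
  obtain ⟨M0, hM0⟩ := nonempty_D hB
  obtain ⟨M, hM, n, hiso⟩ := isolated closed_D ⟨M0, hM0⟩
    (countable_of_findiff fun M' hM' => D_findiff hA hM0 hM')
  have hMc := computable_member hW hjj hii hww hM hiso
  have key : ∀ b : Bool, ¬ Inf (fun x => (M x == b)) := by
    intro b hinf
    have hXc : Computable (fun x => (M x == b)) := comp_beq hMc (Computable.const b)
    obtain ⟨G, h1, h2, h3⟩ := both_colours hc hno hXc hinf b
    exact D_small hA hM h1 h2 fun x hx => by simpa using h3 x hx
  have k1 := Set.not_infinite.1 (key true)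
  have k2 := Set.not_infinite.1 (key false)
  refine Set.infinite_univ (α := ℕ) ((k1.union k2).subset ?_)
  intro x _
  cases h1 : M x
  · right; simp [h1]
  · left; simp [h1]

end

end Pool.Agent.H326NC
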