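import Mathlib
import Pool.Agent.H326NC.Member

namespace Pool.Agent.H326NC

open Pool.Agent.Results.MP_743c94_lc.Full

/-- Equality of a possible output with a bit. -/
def isE (o : Option Bool) (b : Bool) : Bool := o == some b

lemma isE_iff {o : Option Bool} {b : Bool} : isE o b = true ↔ o = some b := by
  simp [isE]

lemma computable_isE {α : Type} [Primcodable α] {f : α → Option Bool} {g : α → Bool}
    (hf : Computable f) (hg : Computable g) : Computable (fun a => isE (f a) (g a)) := by
  have h : Primrec (fun p : Option Bool × Bool => isE p.1 p.2) := Primrec.dom_finite _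
  exact h.to_comp.comp (hf.pair hg)

/-- The finite set coded by `j` is homogeneous of colour `i`. -/
def homog (c : ℕ → ℕ → Bool) (j : ℕ) (i : Bool) : Bool :=
  ball (fun y => ball (fun x => !(j.testBit x && j.testBit y) || (c x y == i)) y) j

/-- On the finite set coded by `j`, known below `k`, the first `L` bits of the answer are those
of `w`. -/
def commit (Ψ : List Bool → ℕ → Option Bool) (L j k w : ℕ) : Bool :=
  ball (fun b => !(ball (fun m => !(isE (Ψ (pre (join (fun _ => false) j.testBit) m) (2 * b + 1))
    (w.testBit b))) (2 * k + 1))) L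

lemma homog_iff {c : ℕ → ℕ → Bool} {j : ℕ} {i : Bool} : homog c j i = true ↔
    ∀ y < j, ∀ x < y, j.testBit x = true → j.testBit y = true → c x y = i := by
  unfold homog
  rw [ball_iff]
  refine forall_congr' fun y => forall_congr' fun _ => ?_
  rw [ball_iff]
  refine forall_congr' fun x => forall_congr' fun _ => ?_
  cases j.testBit x <;> cases j.testBit y <;> simp

lemma commit_iff {Ψ : List Bool → ℕ → Option Bool} {L j k w : ℕ} : commit Ψ L j k w = true ↔
    ∀ b < L, ∃ m, m ≤ 2 * k ∧ Ψ (pre (join (fun _ => false) j.testBit) m) (2 * b + 1) =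
      some (w.testBit b) := by
  unfold commit
  rw [ball_iff]
  refine forall_congr' fun b => forall_congr' fun _ => ?_
  rw [Bool.not_eq_true', ball_false]
  constructor
  · rintro ⟨m, hm, h⟩
    exact ⟨m, by omega, isE_iff.1 (by simpa using h)⟩
  · rintro ⟨m, hm, h⟩
    exact ⟨m, by omega, by rw [isE_iff.2 h]; rfl⟩

def jj (a : ℕ) : ℕ := a.unpair.1
def kk (a : ℕ) : ℕ := a.unpair.2.unpair.1
def ii (a : ℕ) : Bool := a.unpair.2.unpair.2.unpair.1 == 1
def w0 (a : ℕ) : ℕ := a.unpair.2.unpair.2.unpair.2
def idx (u : ℕ → ℕ) (w : ℕ) : ℕ :=
  bif w == u 0 then 0 else bif w == u 1 then 1 else bif w == u 2 then 2 else 3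
def WW (c : ℕ → ℕ → Bool) (Ψ : List Bool → ℕ → Option Bool) (L a : ℕ) : Bool :=
  homog c (jj a) (ii a) && (commit Ψ L (jj a) (kk a) (w0 a) && decide (w0 a < 2 ^ L))

lemma primrec_jj : Primrec jj := Primrec.fst.comp Primrec.unpair
lemma primrec_kk : Primrec kk :=
  Primrec.fst.comp (Primrec.unpair.comp (Primrec.snd.comp Primrec.unpair))
lemma primrec_ii0 : Primrec (fun a : ℕ => a.unpair.2.unpair.2.unpair.1) :=
  Primrec.fst.comp (Primrec.unpair.comp (Primrec.snd.comp
    (Primrec.unpair.comp (Primrec.snd.comp Primrec.unpair))))
lemma primrec_w0 : Primrec w0 :=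
  Primrec.snd.comp (Primrec.unpair.comp (Primrec.snd.comp
    (Primrec.unpair.comp (Primrec.snd.comp Primrec.unpair))))
lemma computable_ii : Computable ii := comp_nbeq primrec_ii0.to_comp (Computable.const 1)

lemma computable_idx (u : ℕ → ℕ) : Computable (idx u) := by
  have h : ∀ t : ℕ, Computable (fun w : ℕ => w == t) := fun t =>
    comp_nbeq Computable.id (Computable.const t)
  exact Computable.cond (h _) (Computable.const _) (Computable.cond (h _) (Computable.const _)
    (Computable.cond (h _) (Computable.const _) (Computable.const _)))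

lemma computable_WW {c : ℕ → ℕ → Bool} (hc : Computable₂ c)
    {Ψ : List Bool → ℕ → Option Bool} (hΨ : Computable₂ Ψ) (L : ℕ) :
    Computable (WW c Ψ L) := by
  have h1 : Computable (fun a => homog c (jj a) (ii a)) := by
    have i1 : Computable₂ (fun (q : ℕ × ℕ) (x : ℕ) =>
        !((jj q.1).testBit x && (jj q.1).testBit q.2) || (c x q.2 == ii q.1)) := by
      have e1 : Computable (fun r : (ℕ × ℕ) × ℕ => jj r.1.1) :=
        primrec_jj.to_comp.comp (Computable.fst.comp Computable.fst)
      refine comp_or (comp_not (comp_and ?_ ?_)) (comp_beq ?_ ?_)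
      · exact computable_testBit.comp e1 Computable.snd
      · exact computable_testBit.comp e1 (Computable.snd.comp Computable.fst)
      · exact hc.comp Computable.snd (Computable.snd.comp Computable.fst)
      · exact computable_ii.comp (Computable.fst.comp Computable.fst)
    have i2 : Computable₂ (fun (a : ℕ) (y : ℕ) =>
        ball (fun x => !((jj a).testBit x && (jj a).testBit y) || (c x y == ii a)) y) :=
      computable_ball i1 Computable.snd
    exact computable_ball i2 primrec_jj.to_comp
  have h2 : Computable (fun a => commit Ψ L (jj a) (kk a) (w0 a)) := by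
    have i0 : Computable (fun r : (ℕ × ℕ) × ℕ =>
        pre (join (fun _ => false) (jj r.1.1).testBit) r.2) := by
      refine computable_pre (f := fun (r : (ℕ × ℕ) × ℕ) => join (fun _ => false)
        (jj r.1.1).testBit) ?_ Computable.snd
      refine computable_join (p := fun _ _ => false) (q := fun (r : (ℕ × ℕ) × ℕ) =>
        (jj r.1.1).testBit) (Computable.const false) ?_
      exact computable_testBit.comp (primrec_jj.to_comp.comp (Computable.fst.comp
        (Computable.fst.comp Computable.fst))) Computable.snd
    have i1 : Computable₂ (fun (q : ℕ × ℕ) (m : ℕ) =>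
        !(isE (Ψ (pre (join (fun _ => false) (jj q.1).testBit) m) (2 * q.2 + 1))
          ((w0 q.1).testBit q.2))) := by
      refine comp_not (computable_isE (hΨ.comp i0 ?_) (computable_testBit.comp ?_ ?_))
      · exact (Primrec.nat_double_succ.to_comp).comp (Computable.snd.comp Computable.fst)
      · exact primrec_w0.to_comp.comp (Computable.fst.comp Computable.fst)
      · exact Computable.snd.comp Computable.fst
    have i2 : Computable₂ (fun (a : ℕ) (b : ℕ) =>
        !(ball (fun m => !(isE (Ψ (pre (join (fun _ => false) (jj a).testBit) m) (2 * b + 1))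
          ((w0 a).testBit b))) (2 * kk a + 1))) := by
      refine comp_not (computable_ball i1 ?_)
      exact (Primrec.nat_double_succ.to_comp).comp (primrec_kk.to_comp.comp Computable.fst)
    exact computable_ball i2 (Computable.const L)
  have h3 : Computable (fun a => decide (w0 a < 2 ^ L)) :=
    ((PrimrecRel.comp Primrec.nat_lt primrec_w0 (Primrec.const (2 ^ L))).decide).to_comp
  exact comp_and h1 (comp_and h2 h3)

lemma testBit_lt {j x : ℕ} (h : j.testBit x = true) : x < j := by
  by_contra hcon
  have h1 : j < 2 ^ x := lt_of_lt_of_le (Nat.lt_two_pow_self (n := j))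
    (Nat.pow_le_pow_right (by norm_num) (by omega))
  rw [Nat.testBit_lt_two_pow h1] at h
  exact Bool.false_ne_true h

lemma pre_congr {p q : ℕ → Bool} {m : ℕ} (h : ∀ x < m, p x = q x) : pre p m = pre q m := by
  unfold pre
  exact List.map_congr_left fun x hx => h x (List.mem_range.1 hx)

/-- The general non-reducibility theorem. -/
theorem general (P : Problem) (L : ℕ) (u : ℕ → ℕ) (h01 : u 0 ≠ u 1) (h02 : u 0 ≠ u 2)
    (h12 : u 1 ≠ u 2) (hu : ∀ v < 3, u v < 2 ^ L) (hP0 : (fun _ => false) ∈ P.dom)
    (hq : ∀ v < 3, ∀ T, ∃ q : ℕ → Bool, Computable q ∧ q ∈ P.dom ∧ (∀ x < T, q x = false) ∧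
      ∀ s ∈ P.sol q, ∀ b < L, s b = (u v).testBit b) :
    ¬ WeihrauchReducible (prod NON P) RT22 := by
  intro hred
  obtain ⟨Φ, Ψ, hΦ, hΨ, hext⟩ := extract hred
  set r0 : ℕ → Bool := fun _ => false with hr0
  have hr0c : Computable r0 := Computable.const false
  have hr0j : ∀ p : ℕ → Bool, (∀ x, p x = false) → left p = r0 ∧ right p = r0 := fun p hp =>
    ⟨funext fun x => hp _, funext fun x => hp _⟩
  have hr0d : r0 ∈ (prod NON P).dom := ⟨Set.mem_univ _, by
    rw [(hr0j r0 fun _ => rfl).2]; exact hP0⟩
  obtain ⟨c0, hc0, hs0⟩ := hext r0 hr0d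
  have hc0c : Computable c0 := computable_of_computes hΦ hr0c hc0
  have hcc : Computable₂ (colr c0) := computable_colr hc0c
  have hww : ∀ v < 3, idx u (u v) = v := by
    intro v hv
    unfold idx
    have : v = 0 ∨ v = 1 ∨ v = 2 := by omega
    rcases this with rfl | rfl | rfl
    · simp
    · rw [beq_false_of_ne h01.symm]; simp
    · rw [beq_false_of_ne h02.symm, beq_false_of_ne h12.symm]; simp
  refine core (W := WW (colr c0) Ψ L) (jj := jj) (ii := ii) (ww := fun a => idx u (w0 a)) hcc
    (fun G i hGc hGi hG => no_comp hΨ hr0c hs0 G i hGc hGi hG) (computable_WW hcc hΨ L)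
    primrec_jj.to_comp computable_ii ((computable_idx u).comp primrec_w0.to_comp) ?_ ?_
  · -- condition A
    intro G i hGi hG
    obtain ⟨s, -, hs⟩ := hs0 G ⟨hGi, i, hG⟩
    obtain ⟨w, hw, hwb⟩ := exists_word (right s) L
    have h1 : ∀ b, ∃ m, Ψ (pre (join r0 G) m) (2 * b + 1) = some (s (2 * b + 1)) :=
      fun b => (hs (2 * b + 1)).1
    choose m hm using h1
    obtain ⟨j, hj, hjb⟩ := exists_word G ((Finset.range L).sup m)
    set k := (Finset.range L).sup m with hk
    have hjG : ∀ x, j.testBit x = true → G x = true := by
      intro x hx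
      have hxk : x < k := by
        by_contra hcon
        have h1 : j < 2 ^ x := lt_of_lt_of_le hj (Nat.pow_le_pow_right (by norm_num) (by omega))
        rw [Nat.testBit_lt_two_pow h1] at hx
        exact Bool.false_ne_true hx
      rw [← hjb x hxk]; exact hx
    refine ⟨Nat.pair j (Nat.pair k (Nat.pair i.toNat w)), ?_, ?_, ?_⟩
    · unfold WW jj kk ii w0
      simp only [Nat.unpair_pair, Bool.and_eq_true, decide_eq_true_eq]
      refine ⟨?_, ?_, hw⟩
      · rw [homog_iff]
        intro y _ x hxy hx hy
        have hii : (i.toNat == 1) = i := by cases i <;> rfl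
        rw [hii]
        exact hG x y hxy (hjG x hx) (hjG y hy)
      · rw [commit_iff]
        intro b hb
        have hmk : m b ≤ k := Finset.le_sup (f := m) (Finset.mem_range.2 hb)
        refine ⟨m b, by omega, ?_⟩
        rw [hwb b hb]
        have h2 : pre (join (fun _ => false) j.testBit) (m b) = pre (join r0 G) (m b) := by
          refine pre_congr fun x hx => ?_
          unfold join
          split_ifs
          · rfl
          · exact hjb (x / 2) (by omega)
        rw [h2, hm b]
        rfl
    · unfold ii
      simp only [Nat.unpair_pair]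
      cases i <;> rfl
    · intro x hx
      unfold jj at hx
      rw [Nat.unpair_pair] at hx
      exact hjG x hx
  · -- condition B
    intro v hv N
    -- the use
    have h1 : ∀ x y, ∃ m, Φ (pre r0 m) (Nat.pair x y) = some (c0 (Nat.pair x y)) :=
      fun x y => (hc0 (Nat.pair x y)).1
    choose use huse using h1
    set U := (Finset.range N).sup (fun x => (Finset.range N).sup (fun y => use x y)) with hU
    have hUle : ∀ x y, x < N → y < N → use x y ≤ U := fun x y hx hy =>
      le_trans (Finset.le_sup (f := fun y => use x y) (Finset.mem_range.2 hy))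
        (Finset.le_sup (f := fun x => (Finset.range N).sup (fun y => use x y))
          (Finset.mem_range.2 hx))
    obtain ⟨q, hqc, hqd, hqT, hqs⟩ := hq v hv (U + N + 1)
    set r : ℕ → Bool := join r0 q with hr
    have hrl : left r = r0 := left_join _ _
    have hrr : right r = q := right_join _ _
    have hrd : r ∈ (prod NON P).dom := ⟨Set.mem_univ _, by rw [hrr]; exact hqd⟩
    have hrc : Computable r := by
      have := computable_join (α := ℕ) (p := fun _ => r0) (q := fun _ => q)
        (hr0c.comp Computable.snd) (hqc.comp Computable.snd)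
      exact this.comp (Computable.const 0) Computable.id
    have hrz : ∀ x < 2 * (U + N + 1), r x = false := by
      intro x hx
      rw [hr]
      unfold join
      split_ifs
      · rfl
      · exact hqT _ (by omega)
    obtain ⟨c1, hc1, hs1⟩ := hext r hrd
    have hc1c : Computable c1 := computable_of_computes hΦ hrc hc1
    have hcc1 : Computable₂ (colr c1) := computable_colr hc1c
    have hagree : ∀ x y, x < N → y < N → colr c1 x y = colr c0 x y := by
      intro x y hx hy
      have h2 := huse x y
      have h3 : pre r0 (use x y) = pre r (use x y) := by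
        refine pre_congr fun z hz => ?_
        rw [hrz z (by have := hUle x y hx hy; omega)]
      rw [h3] at h2
      exact ((hc1 (Nat.pair x y)).2 _ _ h2).symm
    have claim : ∀ a < N, WW (colr c0) Ψ L a = true → idx u (w0 a) ≠ v →
        ∃ B, ∀ y, B ≤ y → ∃ x < a, (jj a).testBit x = true ∧ colr c1 x y ≠ ii a := by
      intro a ha hW hwv
      unfold WW at hW
      simp only [Bool.and_eq_true, decide_eq_true_eq] at hW
      obtain ⟨hhom, hcom, hw2⟩ := hW
      rw [homog_iff] at hhom
      rw [commit_iff] at hcom
      have hja : jj a ≤ a := Nat.unpair_left_le a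
      have hka : kk a ≤ a := (Nat.unpair_left_le _).trans (Nat.unpair_right_le a)
      by_contra hcon
      push Not at hcon
      set X : ℕ → Bool := fun y => decide (a ≤ y) &&
        ball (fun x => !((jj a).testBit x) || (colr c1 x y == ii a)) a with hX
      have hXc : Computable X := by
        have e1 : Computable (fun y : ℕ => decide (a ≤ y)) :=
          ((PrimrecRel.comp Primrec.nat_le (Primrec.const a) Primrec.id).decide).to_comp
        have e2 : Computable₂ (fun (y : ℕ) (x : ℕ) =>
            !((jj a).testBit x) || (colr c1 x y == ii a)) :=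
          comp_or (comp_not (computable_testBit.comp (Computable.const _) Computable.snd))
            (comp_beq (hcc1.comp Computable.snd Computable.fst) (Computable.const _))
        exact comp_and e1 (computable_ball e2 (Computable.const a))
      have hXi : Inf X := by
        refine Set.infinite_of_not_bddAbove ?_
        rintro ⟨B, hB⟩
        obtain ⟨y, hy, hyx⟩ := hcon (max a (B + 1))
        have hay : a ≤ y := le_trans (le_max_left _ _) hy
        have hBy : B < y := lt_of_lt_of_le (Nat.lt_succ_self B) (le_trans (le_max_right _ _) hy)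
        have h2 : X y = true := by
          rw [hX]
          simp only [Bool.and_eq_true, decide_eq_true_eq]
          refine ⟨hay, ball_iff.2 fun x hx => ?_⟩
          by_cases hxj : (jj a).testBit x = true
          · simp [hyx x hx hxj]
          · simp only [Bool.not_eq_true] at hxj
            simp [hxj]
        have := hB h2
        omega
      obtain ⟨G0, g1, g2, g3⟩ := both_colours hcc1
        (fun G i hGc hGi hG => no_comp hΨ hrc hs1 G i hGc hGi hG) hXc hXi (ii a)
      have g4 : ∀ y, G0 y = true → a ≤ y ∧ ∀ x < a, (jj a).testBit x = true →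
          colr c1 x y = ii a := by
        intro y hy
        have h2 := g3 y hy
        rw [hX] at h2
        simp only [Bool.and_eq_true, decide_eq_true_eq] at h2
        refine ⟨h2.1, fun x hx hxj => ?_⟩
        have h3 := ball_iff.1 h2.2 x hx
        simpa [hxj] using h3
      have hGi : Inf (fun x => (jj a).testBit x || G0 x) := by
        refine Set.Infinite.mono ?_ g1
        intro x hx
        have hx' : G0 x = true := hx
        change ((jj a).testBit x || G0 x) = true
        simp [hx']
      have hGH : Hom (colr c1) (ii a) (fun x => (jj a).testBit x || G0 x) := by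
        intro x y hxy hx hy
        simp only [Bool.or_eq_true] at hx hy
        rcases hx with hx | hx <;> rcases hy with hy | hy
        · have hyj := testBit_lt hy
          rw [hagree x y (by omega) (by omega)]
          exact hhom y hyj x hxy hx hy
        · exact (g4 y hy).2 x (by have := testBit_lt hx; omega) hx
        · have h2 := (g4 x hx).1
          have h3 := testBit_lt hy
          omega
        · exact g2 x y hxy hx hy
      obtain ⟨s, hs, hsc⟩ := hs1 _ ⟨hGi, ii a, hGH⟩
      have hs2 : right s ∈ P.sol q := by
        have := hs.2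
        rwa [hrr] at this
      have hbits := hqs _ hs2
      refine hwv ?_
      have hwu : w0 a = u v := by
        refine Nat.eq_of_testBit_eq fun b => ?_
        by_cases hb : b < L
        · obtain ⟨m, hm, hmb⟩ := hcom b hb
          have h2 : pre (join (fun _ => false) (jj a).testBit) m =
              pre (join r (fun x => (jj a).testBit x || G0 x)) m := by
            refine pre_congr fun x hx => ?_
            unfold join
            split_ifs
            · exact (hrz (x / 2) (by omega)).symm
            · have h3 : G0 (x / 2) = false := by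
                by_contra hne
                have h4 := (g4 (x / 2) (by simpa using hne)).1
                omega
              simp [h3]
          rw [h2] at hmb
          have h3 := (hsc (2 * b + 1)).2 _ _ hmb
          rw [h3]
          exact hbits b hb
        · have hLb : 2 ^ L ≤ 2 ^ b := Nat.pow_le_pow_right (by norm_num) (by omega)
          rw [Nat.testBit_lt_two_pow (lt_of_lt_of_le hw2 hLb),
            Nat.testBit_lt_two_pow (lt_of_lt_of_le (hu v hv) hLb)]
      rw [hwu, hww v hv]
    choose! B hB using claim
    refine ⟨fun x => colr c1 x ((Finset.range N).sup B), fun a ha hW hwv => ?_⟩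
    exact hB a ha hW hwv _ (Finset.le_sup (f := B) (Finset.mem_range.2 ha))

/-- Closed choice on `n ≥ 3` points. -/
theorem choice_not {n : ℕ} (hn : 3 ≤ n) : ¬ WeihrauchReducible (prod NON (Choice n)) RT22 := by
  refine general (Choice n) n (fun v => 2 ^ v) (by norm_num) (by norm_num) (by norm_num)
    (fun v hv => Nat.pow_lt_pow_right (by norm_num) (by omega)) ?_ ?_
  · exact ⟨0, by omega, fun _ => rfl⟩
  · intro v hv T
    refine ⟨fun x => decide (T ≤ x) && !(x % n == v), ?_, ⟨v, by omega, fun m => ?_⟩, ?_, ?_⟩
    · have e1 : Computable (fun y : ℕ => decide (T ≤ y)) :=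
        ((PrimrecRel.comp Primrec.nat_le (Primrec.const T) Primrec.id).decide).to_comp
      have e2 : Computable (fun y : ℕ => y % n) :=
        (Primrec.nat_mod.comp Primrec.id (Primrec.const n)).to_comp
      exact comp_and e1 (comp_not (comp_nbeq e2 (Computable.const v)))
    · have h1 : (n * m + v) % n = v := by
        rw [Nat.mul_add_mod]; exact Nat.mod_eq_of_lt (by omega)
      simp [h1]
    · intro x hx
      simp [not_le.2 hx]
    · rintro s ⟨w, hw, rfl, hall⟩ b _
      have hwv : w = v := by
        by_contra hne
        have h1 : (n * T + w) % n = w := by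
          rw [Nat.mul_add_mod]; exact Nat.mod_eq_of_lt hw
        have h2 := hall T
        have h3 : T ≤ n * T + w := by nlinarith
        have h4 : (decide (T ≤ n * T + w) && !((n * T + w) % n == v)) = false := h2
        rw [h1, beq_false_of_ne hne] at h4
        simp [h3] at h4
      subst hwv
      rw [Nat.testBit_two_pow]
      by_cases h : b = w
      · simp [h]
      · simp [h, Ne.symm h]

/-- Two parallel instances of `LLPO`. -/
theorem llpo_sq_not : ¬ WeihrauchReducible (prod NON (prod LLPO LLPO)) RT22 := by
  refine general (prod LLPO LLPO) 2 (fun v => v) (by norm_num) (by norm_num) (by norm_num)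
    (fun v hv => by norm_num; omega) ?_ ?_
  · refine ⟨fun m n h => ?_, fun m n h => ?_⟩
    · exact absurd h (by simp [left])
    · exact absurd h (by simp [right])
  · intro v hv T
    -- the instance of `LLPO` with answer `i` only
    have key : ∀ i : Bool, (fun x => x == 2 * T + (!i).toNat) ∈ LLPO.dom ∧
        ∀ s ∈ LLPO.sol (fun x => x == 2 * T + (!i).toNat), s = fun _ => i := by
      intro i
      refine ⟨fun m n hm hn => ?_, ?_⟩
      · simp only [beq_iff_eq] at hm hn
        omega
      · rintro s ⟨i', rfl, hall⟩
        have h1 : i' = i := by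
          by_contra hne
          have h2 := hall T
          have h3 : i' = !i := by cases i <;> cases i' <;> simp_all
          rw [h3] at h2
          simp at h2
        rw [h1]
    have hcomp : ∀ t : ℕ, Computable (fun x : ℕ => x == t) := fun t =>
      comp_nbeq Computable.id (Computable.const t)
    refine ⟨join (fun x => x == 2 * T + (!(v.testBit 0)).toNat)
      (fun x => x == 2 * T + (!(v.testBit 1)).toNat), ?_, ?_, ?_, ?_⟩
    · have := computable_join (α := ℕ) (p := fun _ x => x == 2 * T + (!(v.testBit 0)).toNat)
        (q := fun _ x => x == 2 * T + (!(v.testBit 1)).toNat)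
        ((hcomp _).comp Computable.snd) ((hcomp _).comp Computable.snd)
      exact this.comp (Computable.const 0) Computable.id
    · refine ⟨?_, ?_⟩
      · rw [left_join]; exact (key _).1
      · rw [right_join]; exact (key _).1
    · intro x hx
      unfold join
      split_ifs
      · have : ¬ (x / 2 = 2 * T + (!(v.testBit 0)).toNat) := by omega
        simpa using this
      · have : ¬ (x / 2 = 2 * T + (!(v.testBit 1)).toNat) := by omega
        simpa using this
    · rintro s ⟨hs1, hs2⟩ b hb
      rw [left_join] at hs1
      rw [right_join] at hs2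
      have e1 := congrFun ((key _).2 _ hs1) 0
      have e2 := congrFun ((key _).2 _ hs2) 0
      have : b = 0 ∨ b = 1 := by omega
      rcases this with rfl | rfl
      · exact e1
      · exact e2

end Pool.Agent.H326NC
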